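import Pool.Agent.W912.ND.Defs

set_option autoImplicit false

namespace Pool.Agent.W154.ND

open Pool.Agent.H620R2.Gauge H568R2 Pool.Agent.H676 Pool.Agent.W912.ND

/-- exchange of the two bits outside `Q`. -/
def sw {I : Type} [DecidableEq I] (Q : Finset I) :
    ((I → Bool) × (I → Bool)) ≃ ((I → Bool) × (I → Bool)) where
  toFun p := (ow Q p.1 p.2, ow Q p.2 p.1)
  invFun p := (ow Q p.1 p.2, ow Q p.2 p.1)
  left_inv p := by
    refine Prod.ext ?_ ?_ <;> funext i <;> simp only [ow] <;> split_ifs <;> rfl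
  right_inv p := by
    refine Prod.ext ?_ ?_ <;> funext i <;> simp only [ow] <;> split_ifs <;> rfl

theorem exow : S_EXOW := by
  intro I _ _ Q F
  have hE : ∀ G : (I → Bool) → ℝ, Ex unif G = (1 / 2) ^ Fintype.card I * ∑ a, G a := by
    intro G
    unfold Ex unif
    rw [Finset.mul_sum]
    refine Finset.sum_congr rfl fun a _ => ?_
    rw [Finset.prod_const, Finset.card_univ]
  have h1 : ∑ p : (I → Bool) × (I → Bool), F (ow Q p.1 p.2) =
      ∑ p : (I → Bool) × (I → Bool), F p.1 :=
    (sw Q).sum_comp (fun p => F p.1)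
  rw [Fintype.sum_prod_type, Fintype.sum_prod_type] at h1
  have h2 : ∑ x : I → Bool, ∑ _y : I → Bool, F x = 2 ^ Fintype.card I * ∑ x, F x := by
    rw [Finset.mul_sum]
    refine Finset.sum_congr rfl fun x _ => ?_
    rw [Finset.sum_const, Finset.card_univ, Fintype.card_fun, Fintype.card_bool, nsmul_eq_mul]
    push_cast
    rfl
  simp only [hE]
  rw [← Finset.mul_sum]
  simp only at h1
  rw [h1, h2]
  have h3 : ((1 : ℝ) / 2) ^ Fintype.card I * 2 ^ Fintype.card I = 1 := by
    rw [← mul_pow]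
    norm_num
  calc (1 / 2) ^ Fintype.card I * ∑ a, F a
      = (1 / 2) ^ Fintype.card I * (((1 / 2) ^ Fintype.card I * 2 ^ Fintype.card I) *
        ∑ a, F a) := by rw [h3, one_mul]
    _ = _ := by ring

end Pool.Agent.W154.ND
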